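import Pool.Agent.H58.FN.Targets

/-!
# FM6: the difference of the phase cochains on small sets with pyramids (MP_6a7a6f_gt)
-/

set_option autoImplicit false

namespace Pool.Agent.H17.FN

open Pool.Agent.H58.FL Pool.Agent.H58.FN

theorem fm6_a : ∀ a b : Fin 6, pen a b 5 5 = 0 := by decide +kernel

theorem fm6_b : ∀ a b d : Fin 6, a ≠ 5 → b ≠ 5 → d ≠ 5 →
    5 * pen a b d 5 = ∑ z : Fin 6, pen z b d 5 - ∑ z : Fin 6, pen z a d 5 +
      ∑ z : Fin 6, pen z a b 5 := by decide +kernel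

theorem fm6_c : ∀ a b : Fin 6, pen 5 a b 5 = 0 := by decide +kernel

section

variable {E J X : Type} [NormedAddCommGroup E] [InnerProductSpace ℂ E]

theorem mm_one (x : J → E) (A B C D : Fin 1 → J) :
    MM x A B C D = mn (x (A 0)) (x (B 0)) (x (C 0)) (x (D 0)) := by
  unfold MM
  simp

end

/-- FM6: the difference of the phase cochains on small sets with pyramids. -/
theorem pf_FM6 (_hPBS : T_PBS) (hUMM : T_UMM) (hPRM : Pool.Agent.H58.FN.T_PRM) (hCLQ : T_CLQ) (hLB6 : T_LB6) :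
    T_FM6 := by
  intro E J X _ _ _ κ δ x t σ S hS hSK hP
  obtain ⟨c, H, -, hmn, hc⟩ := hLB6 E J X κ δ x t σ S hS hSK hP
  have hδ : 0 < δ := σ.d_pos
  -- the prism formula
  have hprm : ∀ f ∈ S, ∀ g ∈ S, ∀ h ∈ S, UU x σ.vv f g h - UU x σ.hh f g h =
      d1 (EE x σ.vv σ.hh) f g h -
        mn (x (σ.v f)) (x (σ.v g)) (x (σ.v h)) (x (σ.p h 5)) := by
    intro f hf g hg h hh
    have h1 := hPRM E J X 1 1 x σ.vv σ.hh one_pos one_pos f g h
    rw [mm_one, mm_one, mm_one] at h1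
    have h2 : mn (x (σ.vv f 0)) (x (σ.vv g 0)) (x (σ.hh g 0)) (x (σ.hh h 0)) = 0 := by
      show mn (x (σ.v f)) (x (σ.v g)) (x (σ.p g 5)) (x (σ.p h 5)) = 0
      rw [hmn _ (hc f hf).2.1 _ (hc g hg).2.1 _ ((hc g hg).1 5) _ ((hc h hh).1 5),
        (hc g hg).2.2.2.1, (hc h hh).2.2.2.1, fm6_a]
      exact Int.cast_zero
    have h3 : mn (x (σ.vv f 0)) (x (σ.hh f 0)) (x (σ.hh g 0)) (x (σ.hh h 0)) = 0 := by
      show mn (x (σ.v f)) (x (σ.p f 5)) (x (σ.p g 5)) (x (σ.p h 5)) = 0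
      rw [hmn _ (hc f hf).2.1 _ ((hc f hf).1 5) _ ((hc g hg).1 5) _ ((hc h hh).1 5),
        (hc f hf).2.2.2.1, (hc g hg).2.2.2.1, (hc h hh).2.2.2.1, fm6_a]
      exact Int.cast_zero
    rw [h2, h3] at h1
    rw [h1, add_zero, sub_zero]
    rfl
  refine ⟨fun f hf g hg h hh k hk => ?_, fun hD f hf g hg h hh => ?_,
    fun hK1 hD f hf g hg h hh => ?_⟩
  · rw [hUMM E J X 1 x σ.hh one_pos f g h k, mm_one]
    show mn (x (σ.p f 5)) (x (σ.p g 5)) (x (σ.p h 5)) (x (σ.p k 5)) = 0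
    rw [hmn _ ((hc f hf).1 5) _ ((hc g hg).1 5) _ ((hc h hh).1 5) _ ((hc k hk).1 5),
      (hc f hf).2.2.2.1, (hc g hg).2.2.2.1, (hc h hh).2.2.2.1, (hc k hk).2.2.2.1, fm6_a]
    exact Int.cast_zero
  · rw [hprm f hf g hg h hh]
    have : mn (x (σ.v f)) (x (σ.v g)) (x (σ.v h)) (x (σ.p h 5)) = 0 := by
      by_contra hne
      exact hD ⟨f, hf, g, hg, h, hh, h, hh, hne⟩
    rw [this, sub_zero]
  · -- no label five
    have hlab : ∀ f ∈ S, c (σ.v f) ≠ 5 := by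
      intro f hf h5
      obtain ⟨f1, hf1, g1, hg1, h1, hh1, k1, hk1, hne⟩ := hD
      rw [hmn _ (hc f1 hf1).2.1 _ (hc g1 hg1).2.1 _ (hc h1 hh1).2.1 _ ((hc k1 hk1).1 5),
        (hc k1 hk1).2.2.2.1] at hne
      have hcl := (hCLQ E J X κ δ x t σ S hSK).1
      refine hK1.2 f hf ⟨![σ.v f1, σ.v g1, σ.v h1, σ.v f], ?_, ?_⟩
      · show mn (x (σ.v f1)) (x (σ.v g1)) (x (σ.v h1)) (x (σ.v f)) ≠ 0
        rw [hmn _ (hc f1 hf1).2.1 _ (hc g1 hg1).2.1 _ (hc h1 hh1).2.1 _ (hc f hf).2.1, h5]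
        exact hne
      · have hw : ∀ g ∈ S, 24 * δ < t f (σ.v g) := by
          intro g hg
          have e1 := hcl g hg f hf (σ.v g)
          have e2 := σ.d_small g
          linarith
        intro i
        fin_cases i
        · exact hw f1 hf1
        · exact hw g1 hg1
        · exact hw h1 hh1
        · exact hw f hf
    -- the correction
    have hx2 : ∀ f ∈ S, ∀ g ∈ S, σ.x2 f g =
        -(1 / 5) * ((∑ z : Fin 6, pen z (c (σ.v f)) (c (σ.v g)) 5 : ℤ) : ℝ) := by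
      intro f hf g hg
      unfold Sel.x2
      congr 1
      have e1 : ∀ i : Fin 6, mn (x (σ.p f i)) (x (σ.v f)) (x (σ.v g)) (x (σ.p f 5)) =
          ((pen ((c ∘ σ.p f) i) (c (σ.v f)) (c (σ.v g)) 5 : ℤ) : ℝ) := by
        intro i
        rw [hmn _ ((hc f hf).1 i) _ (hc f hf).2.1 _ (hc g hg).2.1 _ ((hc f hf).1 5),
          (hc f hf).2.2.2.1]
        rfl
      have e2 := Function.Bijective.sum_comp (hc f hf).2.2.1
        (fun z : Fin 6 => pen z (c (σ.v f)) (c (σ.v g)) 5)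
      have e3 : ((c ∘ σ.p f) (Fin.last 5)) = 5 := (hc f hf).2.2.2.1
      rw [Fin.sum_univ_castSucc, e3, fm6_c, add_zero] at e2
      rw [← e2]
      push_cast
      exact Finset.sum_congr rfl fun i _ => e1 i.castSucc
    rw [hprm f hf g hg h hh,
      hmn _ (hc f hf).2.1 _ (hc g hg).2.1 _ (hc h hh).2.1 _ ((hc h hh).1 5), (hc h hh).2.2.2.1]
    have e4 := fm6_b (c (σ.v f)) (c (σ.v g)) (c (σ.v h)) (hlab f hf) (hlab g hg) (hlab h hh)
    have e5 : 5 * ((pen (c (σ.v f)) (c (σ.v g)) (c (σ.v h)) 5 : ℤ) : ℝ) =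
        ((∑ z : Fin 6, pen z (c (σ.v g)) (c (σ.v h)) 5 : ℤ) : ℝ) -
          ((∑ z : Fin 6, pen z (c (σ.v f)) (c (σ.v h)) 5 : ℤ) : ℝ) +
          ((∑ z : Fin 6, pen z (c (σ.v f)) (c (σ.v g)) 5 : ℤ) : ℝ) := by
      exact_mod_cast e4
    unfold d1
    simp only
    rw [hx2 g hg h hh, hx2 f hf h hh, hx2 f hf g hg]
    linarith

end Pool.Agent.H17.FN
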