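import Pool.Agent.H58.FN.Targets

/-!
# NMP: no monopoles near a point (MP_6a7a6f_gt)
-/

set_option autoImplicit false

namespace Pool.Agent.H17.FN

open Pool.Agent.H58.FL Pool.Agent.H58.FN

section

variable {E : Type} [NormedAddCommGroup E] [InnerProductSpace ℂ E]

/-- the unit vectors near `p` -/
def Nr (p x : E) : Prop := ‖x‖ = 1 ∧ 3 / 4 < ‖inner ℂ p x‖ ^ 2

theorem nmp_orth {p x : E} (hp : ‖p‖ = 1) (hx : ‖x‖ = 1) :
    ‖x - (inner ℂ p x) • p‖ ^ 2 = 1 - ‖inner ℂ p x‖ ^ 2 := by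
  rw [@norm_sub_sq ℂ, norm_smul, hx, hp, inner_smul_right, ← inner_conj_symm x p,
    Complex.mul_conj']
  have : (RCLike.re ((‖inner ℂ p x‖ : ℂ) ^ 2) : ℝ) = ‖inner ℂ p x‖ ^ 2 := by
    rw [← Complex.ofReal_pow]
    exact Complex.ofReal_re _
  rw [this]
  ring

theorem nmp_key {p x y : E} (hp : ‖p‖ = 1) (hx : Nr p x) (hy : Nr p y) :
    inner ℂ p x * inner ℂ x y * inner ℂ y p ≠ 0 ∧ |ar p x y| < Real.pi / 3 := by
  obtain ⟨α, hα⟩ : ∃ α : ℂ, α = inner ℂ p x := ⟨_, rfl⟩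
  obtain ⟨β, hβ⟩ : ∃ β : ℂ, β = inner ℂ p y := ⟨_, rfl⟩
  obtain ⟨w, hw⟩ : ∃ w : ℂ, w = inner ℂ (x - α • p) (y - β • p) := ⟨_, rfl⟩
  have hxp : inner ℂ x p = (starRingEnd ℂ) α := by rw [hα, inner_conj_symm]
  have hyp : inner ℂ y p = (starRingEnd ℂ) β := by rw [hβ, inner_conj_symm]
  have hpp : inner ℂ p p = (1 : ℂ) := by
    rw [inner_self_eq_norm_sq_to_K, hp]
    simp
  have hxy : inner ℂ x y = (starRingEnd ℂ) α * β + w := by
    rw [hw, inner_sub_left, inner_sub_right, inner_sub_right, inner_smul_left, inner_smul_left,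
      inner_smul_right, inner_smul_right, hpp, hxp, ← hβ]
    ring
  obtain ⟨A, hA⟩ : ∃ A : ℝ, A = ‖α‖ := ⟨_, rfl⟩
  obtain ⟨B, hB⟩ : ∃ B : ℝ, B = ‖β‖ := ⟨_, rfl⟩
  have hA0 : 0 ≤ A := hA ▸ norm_nonneg _
  have hB0 : 0 ≤ B := hB ▸ norm_nonneg _
  have hA2 : 3 / 4 < A ^ 2 := by rw [hA, hα]; exact hx.2
  have hB2 : 3 / 4 < B ^ 2 := by rw [hB, hβ]; exact hy.2
  have hx' : ‖x - α • p‖ ^ 2 = 1 - A ^ 2 := by rw [hA, hα]; exact nmp_orth hp hx.1
  have hy' : ‖y - β • p‖ ^ 2 = 1 - B ^ 2 := by rw [hB, hβ]; exact nmp_orth hp hy.1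
  have hw1 : ‖w‖ < 1 / 4 := by
    have h1 : ‖w‖ ≤ ‖x - α • p‖ * ‖y - β • p‖ := by rw [hw]; exact norm_inner_le_norm _ _
    have h2 : ‖x - α • p‖ < 1 / 2 := by
      apply lt_of_pow_lt_pow_left₀ 2 (by norm_num)
      rw [hx']
      linarith
    have h3 : ‖y - β • p‖ < 1 / 2 := by
      apply lt_of_pow_lt_pow_left₀ 2 (by norm_num)
      rw [hy']
      linarith
    have h4 := norm_nonneg (x - α • p)
    have h5 := norm_nonneg (y - β • p)
    nlinarith
  have hAB : 3 / 4 < A * B := by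
    have h1 : (3 / 4) ^ 2 < (A * B) ^ 2 := by
      rw [mul_pow]
      nlinarith
    exact lt_of_pow_lt_pow_left₀ 2 (by positivity) h1
  obtain ⟨e, he⟩ : ∃ e : ℂ, e = α * (starRingEnd ℂ) β * w := ⟨_, rfl⟩
  have hZ : inner ℂ p x * inner ℂ x y * inner ℂ y p = ((A ^ 2 * B ^ 2 : ℝ) : ℂ) + e := by
    rw [hxy, hyp, ← hα, he, hA, hB]
    push_cast
    rw [← Complex.mul_conj', ← Complex.mul_conj']
    ring
  have he1 : ‖e‖ < A * B / 4 := by
    rw [he, norm_mul, norm_mul, RCLike.norm_conj, ← hA, ← hB]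
    nlinarith
  have hre : A * B / 2 < (inner ℂ p x * inner ℂ x y * inner ℂ y p).re := by
    rw [hZ, Complex.add_re, Complex.ofReal_re]
    have h1 := (abs_le.1 (Complex.abs_re_le_norm e)).1
    nlinarith
  have him : |(inner ℂ p x * inner ℂ x y * inner ℂ y p).im| < A * B / 4 := by
    rw [hZ, Complex.add_im, Complex.ofReal_im, zero_add]
    exact (Complex.abs_im_le_norm e).trans_lt he1
  obtain ⟨Z, hZ'⟩ : ∃ Z : ℂ, Z = inner ℂ p x * inner ℂ x y * inner ℂ y p := ⟨_, rfl⟩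
  have har : ar p x y = Z.arg := by rw [hZ']; rfl
  rw [← hZ'] at hre him ⊢
  have hre0 : 0 < Z.re := by linarith
  have hne : Z ≠ 0 := fun h => by rw [h] at hre0; simp at hre0
  refine ⟨hne, ?_⟩
  rw [har, Complex.arg_of_re_nonneg hre0.le]
  have hn : 0 < ‖Z‖ := norm_pos_iff.2 hne
  have hZn : Z.re ≤ ‖Z‖ := (le_abs_self _).trans (Complex.abs_re_le_norm Z)
  have ht : |Z.im / ‖Z‖| ≤ 1 / 2 := by
    rw [abs_div, abs_of_pos hn, div_le_iff₀ hn]
    linarith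
  have hs : Real.arcsin (1 / 2) = Real.pi / 6 := by
    rw [← Real.sin_pi_div_six]
    exact Real.arcsin_sin (by linarith [Real.pi_pos]) (by linarith [Real.pi_pos])
  obtain ⟨h1, h2⟩ := abs_le.1 ht
  have h3 := Real.arcsin_le_arcsin h2
  have h4 := Real.arcsin_le_arcsin h1
  rw [Real.arcsin_neg, hs] at h4
  rw [hs] at h3
  rw [abs_lt]
  constructor <;> linarith [Real.pi_pos]

/-- antisymmetry -/
theorem nmp_anti {p x y : E} (hp : ‖p‖ = 1) (hx : Nr p x) (hy : Nr p y) :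
    ar p y x = -ar p x y := by
  have h1 := (nmp_key hp hx hy).2
  have h2 : inner ℂ p y * inner ℂ y x * inner ℂ x p =
      (starRingEnd ℂ) (inner ℂ p x * inner ℂ x y * inner ℂ y p) := by
    rw [map_mul, map_mul, inner_conj_symm, inner_conj_symm, inner_conj_symm]
    ring
  unfold ar at h1 ⊢
  rw [h2, Complex.arg_conj, if_neg]
  intro h
  rw [h, abs_of_pos Real.pi_pos] at h1
  linarith [Real.pi_pos]

/-- the phase of a triangle near `p` -/
theorem nmp_tri {p x y z : E} (hp : ‖p‖ = 1) (hx : Nr p x) (hy : Nr p y) (hz : Nr p z) :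
    ar x y z = ar p x y + ar p y z + ar p z x := by
  obtain ⟨n1, k1⟩ := nmp_key hp hx hy
  obtain ⟨n2, k2⟩ := nmp_key hp hy hz
  obtain ⟨n3, k3⟩ := nmp_key hp hz hx
  have hpos : ∀ u : E, Nr p u → 0 < ‖inner ℂ p u‖ ^ 2 := fun u hu => by linarith [hu.2]
  have hr : 0 < ‖inner ℂ p x‖ ^ 2 * ‖inner ℂ p y‖ ^ 2 * ‖inner ℂ p z‖ ^ 2 :=
    mul_pos (mul_pos (hpos x hx) (hpos y hy)) (hpos z hz)
  have hprod : (inner ℂ p x * inner ℂ x y * inner ℂ y p) *
      (inner ℂ p y * inner ℂ y z * inner ℂ z p) * (inner ℂ p z * inner ℂ z x * inner ℂ x p) =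
      ((‖inner ℂ p x‖ ^ 2 * ‖inner ℂ p y‖ ^ 2 * ‖inner ℂ p z‖ ^ 2 : ℝ) : ℂ) *
        (inner ℂ x y * inner ℂ y z * inner ℂ z x) := by
    push_cast
    rw [← Complex.mul_conj', ← Complex.mul_conj', ← Complex.mul_conj', inner_conj_symm,
      inner_conj_symm, inner_conj_symm]
    ring
  have e1 : ar x y z = ((inner ℂ p x * inner ℂ x y * inner ℂ y p) *
      (inner ℂ p y * inner ℂ y z * inner ℂ z p) *
        (inner ℂ p z * inner ℂ z x * inner ℂ x p)).arg := by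
    rw [hprod, Complex.arg_real_mul _ hr]
    rfl
  rw [e1]
  unfold ar at k1 k2 k3 ⊢
  obtain ⟨a1, b1⟩ := abs_lt.1 k1
  obtain ⟨a2, b2⟩ := abs_lt.1 k2
  obtain ⟨a3, b3⟩ := abs_lt.1 k3
  have e2 := Complex.arg_mul n1 n2 ⟨by linarith, by linarith⟩
  rw [Complex.arg_mul (mul_ne_zero n1 n2) n3 (by rw [e2]; exact ⟨by linarith, by linarith⟩), e2]

theorem nmp_rot (a b c : E) : ar b c a = ar a b c := by
  unfold ar
  congr 1
  ring

end

/-- NMP: no monopoles near a point. -/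
theorem pf_NMP : T_NMP := by
  intro E _ _ p a b c hp ha hb hc h1 h2 h3
  have na : Nr p a := ⟨ha, h1⟩
  have nb : Nr p b := ⟨hb, h2⟩
  have nc : Nr p c := ⟨hc, h3⟩
  have ab := nmp_anti hp na nb
  have bc := nmp_anti hp nb nc
  have ca := nmp_anti hp nc na
  have habc := nmp_tri hp na nb nc
  have rot : ∀ x y z : E, ar y z x = ar x y z := nmp_rot
  have r1 : ar a p c = ar p c a := (rot a p c).symm
  have r2 : ar a p b = ar p b a := (rot a p b).symm
  have r3 : ar b p c = ar p c b := (rot b p c).symm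
  have r4 : ar a b p = ar p a b := rot p a b
  have r5 : ar b c p = ar p b c := rot p b c
  have r6 : ar a c p = ar p a c := rot p a c
  refine ⟨?_, ?_, ?_, ?_, ?_⟩
  · unfold mn
    rw [habc, div_eq_zero_iff]
    left
    linarith
  · unfold mn
    rw [habc, r1, r2, div_eq_zero_iff]
    left
    linarith
  · unfold mn
    rw [habc, r1, r3, r4, div_eq_zero_iff]
    left
    linarith
  · unfold mn
    rw [habc, r4, r5, r6, div_eq_zero_iff]
    left
    linarith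
  · intro d hd h4
    have nd : Nr p d := ⟨hd, h4⟩
    have hbcd := nmp_tri hp nb nc nd
    have hacd := nmp_tri hp na nc nd
    have habd := nmp_tri hp na nb nd
    have db := nmp_anti hp nd nb
    have da := nmp_anti hp nd na
    have cd := nmp_anti hp nc nd
    unfold mn
    rw [habc, hbcd, hacd, habd, div_eq_zero_iff]
    left
    linarith

end Pool.Agent.H17.FN
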